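import Pool.Agent.H.MP_bff676_an.Defs

namespace Pool.Agent.H.MP_bff676_an

open MeasureTheory Set Filter Topology ProbabilityTheory
open scoped ENNReal

lemma gauss_mem (x : ℝ) : gauss x ∈ Icc (0 : ℝ) 1 :=
  ⟨Int.fract_nonneg _, (Int.fract_lt_one _).le⟩

lemma iter_mem {x : ℝ} (hx : x ∈ Icc (0 : ℝ) 1) (k : ℕ) : gauss^[k] x ∈ Icc (0 : ℝ) 1 := by
  cases k with
  | zero => exact hx
  | succ k => rw [Function.iterate_succ_apply']; exact gauss_mem _

lemma iter_zero {x : ℝ} {i k : ℕ} (h : gauss^[i] x = 0) (hik : i ≤ k) : gauss^[k] x = 0 := by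
  obtain ⟨j, rfl⟩ := Nat.exists_eq_add_of_le' hik
  rw [Function.iterate_add_apply, h]
  exact Function.iterate_fixed (by simp [gauss]) j

/-- terms of the series -/
noncomputable def term (x : ℝ) (k : ℕ) : ℝ := if gauss^[k] x = 0 then 0
    else (-1) ^ k / 2 ^ (∑ i ∈ Finset.range (k + 1), digit x i)

lemma summable_term {x : ℝ} (hx : x ∈ Icc (0 : ℝ) 1) : Summable (term x) := by
  refine Summable.of_norm_bounded (g := fun k => (1 / 2 : ℝ) ^ k) summable_geometric_two ?_
  intro k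
  unfold term
  split_ifs with h
  · simp
  · have h1 : k ≤ ∑ i ∈ Finset.range (k + 1), digit x i := by
      have : ∑ i ∈ Finset.range (k + 1), 1 ≤ ∑ i ∈ Finset.range (k + 1), digit x i := by
        refine Finset.sum_le_sum fun i hi => ?_
        have hi' : i ≤ k := Nat.lt_succ_iff.mp (Finset.mem_range.mp hi)
        have h0 : gauss^[i] x ≠ 0 := fun h0 => h (iter_zero h0 hi')
        have hm := iter_mem hx i
        have hp : 0 < gauss^[i] x := lt_of_le_of_ne hm.1 h0.symm
        exact Nat.le_floor (by simpa using one_le_inv₀ hp |>.mpr hm.2)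
      simp at this; omega
    rw [norm_div, norm_pow, norm_neg, norm_one, one_pow, Real.norm_of_nonneg (by positivity),
      one_div_pow]
    exact one_div_le_one_div_of_le (by positivity) (pow_le_pow_right₀ one_le_two h1)

lemma mink_eq {x : ℝ} (hx : x ∈ Ioc (0 : ℝ) 1) :
    mink x = (2 - mink (gauss x)) / 2 ^ ⌊x⁻¹⌋₊ := by
  have h1 : mink x = 2 * ∑' k, term x k := rfl
  have h2 : mink (gauss x) = 2 * ∑' k, term (gauss x) k := rfl
  rw [h1, h2, (summable_term ⟨hx.1.le, hx.2⟩).tsum_eq_zero_add]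
  have h3 : ∀ k, term x (k + 1) = -(2 ^ ⌊x⁻¹⌋₊ : ℝ)⁻¹ * term (gauss x) k := by
    intro k
    unfold term
    rw [Function.iterate_succ_apply]
    split_ifs
    · simp
    · rw [Finset.sum_range_succ' _ (k + 1)]
      have : ∀ i, digit x (i + 1) = digit (gauss x) i := fun i => rfl
      simp only [this]
      have : digit x 0 = ⌊x⁻¹⌋₊ := rfl
      rw [this, pow_succ, pow_add (2 : ℝ)]
      field_simp
  simp only [h3, tsum_mul_left]
  have h4 : term x 0 = (2 ^ ⌊x⁻¹⌋₊ : ℝ)⁻¹ := by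
    simp [term, hx.1.ne', digit]
  rw [h4]; field_simp; ring

lemma mink_zero : mink 0 = 0 := by
  have : ∀ k, gauss^[k] 0 = 0 := fun k => Function.iterate_fixed (by simp [gauss]) k
  simp [mink, this]

lemma mink_one : mink 1 = 1 := by
  rw [mink_eq ⟨one_pos, le_rfl⟩]
  simp [gauss, mink_zero]

lemma mink_g {x : ℝ} (hx : x ∈ Icc (0 : ℝ) 1) : mink (x / (1 + x)) = mink x / 2 := by
  rcases hx.1.eq_or_lt with rfl | h0
  · simp [mink_zero]
  have h1 : x / (1 + x) ∈ Ioc (0 : ℝ) 1 :=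
    ⟨by positivity, by rw [div_le_one (by positivity)]; linarith⟩
  have e : (x / (1 + x))⁻¹ = x⁻¹ + 1 := by field_simp
  rw [mink_eq h1, mink_eq ⟨h0, hx.2⟩, gauss, e, Int.fract_add_one, Nat.floor_add_one (by positivity),
    pow_succ, gauss]
  field_simp

lemma mink_h {x : ℝ} (hx : x ∈ Icc (0 : ℝ) 1) : mink (1 / (1 + x)) = 1 - mink x / 2 := by
  rcases hx.2.eq_or_lt with rfl | h1
  · rw [mink_g ⟨zero_le_one, le_rfl⟩, mink_one]; norm_num
  have h0 := hx.1
  have h2 : 1 / (1 + x) ∈ Ioc (0 : ℝ) 1 :=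
    ⟨by positivity, by rw [div_le_one (by positivity)]; linarith⟩
  have e : (1 / (1 + x))⁻¹ = x + 1 := by field_simp; ring
  have hf : Int.fract x = x := Int.fract_eq_self.mpr ⟨h0, h1⟩
  have hn : ⌊x⌋₊ = 0 := Nat.floor_eq_zero.mpr h1
  rw [mink_eq h2, gauss, e, Int.fract_add_one, Nat.floor_add_one h0, hf, hn]
  ring

/-- the measure with distribution function `mink` -/
def IsMink (μ : Measure ℝ) : Prop :=
  ∀ x ∈ Icc (0 : ℝ) 1, μ (Icc 0 x) = ENNReal.ofReal (mink x)

variable {μ : Measure ℝ} [IsProbabilityMeasure μ]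

lemma IsMink.compl (h : IsMink μ) : μ (Icc (0 : ℝ) 1)ᶜ = 0 := by
  rw [prob_compl_eq_zero_iff measurableSet_Icc, h 1 ⟨zero_le_one, le_rfl⟩, mink_one]; simp

lemma IsMink.congr (h : IsMink μ) {S T : Set ℝ} (hST : ∀ x ∈ Icc (0 : ℝ) 1, x ∈ S ↔ x ∈ T) :
    μ S = μ T := by
  apply measure_congr
  have : ∀ᵐ x ∂μ, x ∈ Icc (0 : ℝ) 1 := h.compl
  filter_upwards [this] with x hx
  exact propext (hST x hx)

lemma IsMink.nonneg (h : IsMink μ) {x : ℝ} (hx : x ∈ Icc (0 : ℝ) 1) : 0 ≤ mink x := by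
  by_contra hc
  push Not at hc
  have h1 : 1 / (1 + x) ∈ Icc (0 : ℝ) 1 := by
    have := hx.1
    exact ⟨by positivity, by rw [div_le_one (by positivity)]; linarith⟩
  have h2 := h _ h1
  have h3 : μ (Icc 0 (1 / (1 + x))) ≤ 1 := prob_le_one
  rw [h2, mink_h hx, ENNReal.ofReal_le_one] at h3
  linarith

lemma IsMink.cdf_eq (h : IsMink μ) {x : ℝ} (hx : x ∈ Icc (0 : ℝ) 1) : cdf μ x = mink x := by
  rw [cdf_eq_real, Measure.real, h.congr (T := Icc 0 x) (fun y hy => by simp [hy.1]), h x hx,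
    ENNReal.toReal_ofReal (h.nonneg hx)]

lemma IsMink.atom (h : IsMink μ) (x : ℝ) : μ {x} = 0 := by
  by_cases hx : x ∈ Ioc (0 : ℝ) 1
  · rw [← measure_cdf μ, StieltjesFunction.measure_singleton]
    have hlim : Tendsto (cdf μ) (𝓝[<] x) (𝓝 (cdf μ x)) := by
      have h0 := hx.1
      have h1 : Tendsto (fun t : ℝ => 1 / (1 + t)) (𝓝[<] x) (𝓝[≥] (1 / (1 + x))) := by
        apply tendsto_nhdsWithin_of_tendsto_nhds_of_eventually_within
        · exact (ContinuousAt.tendsto (by fun_prop (disch := positivity))).mono_left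
            nhdsWithin_le_nhds
        · filter_upwards [Ioo_mem_nhdsLT h0] with t ht
          have := ht.1
          show 1 / (1 + x) ≤ 1 / (1 + t)
          exact one_div_le_one_div_of_le (by positivity) (by linarith [ht.2])
      have h2 := ((cdf μ).right_continuous (1 / (1 + x))).tendsto.comp h1
      have h3 : Tendsto (fun t => 2 - 2 * cdf μ (1 / (1 + t))) (𝓝[<] x)
          (𝓝 (2 - 2 * cdf μ (1 / (1 + x)))) := (h2.const_mul 2).const_sub 2
      have key : ∀ t ∈ Icc (0 : ℝ) 1, 2 - 2 * cdf μ (1 / (1 + t)) = cdf μ t := by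
        intro t ht
        have := ht.1
        rw [h.cdf_eq ⟨by positivity, by rw [div_le_one (by positivity)]; linarith⟩, mink_h ht,
          h.cdf_eq ht]
        ring
      rw [key x ⟨h0.le, hx.2⟩] at h3
      refine h3.congr' ?_
      filter_upwards [Ioo_mem_nhdsLT h0] with t ht
      exact key t ⟨ht.1.le, ht.2.le.trans hx.2⟩
    rw [leftLim_eq_of_tendsto hlim]
    simp
  · by_cases h0 : x = 0
    · have := h 0 ⟨le_rfl, zero_le_one⟩
      rw [mink_zero] at this
      simpa [h0] using this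
    · rw [h.congr (T := ∅)]
      · simp
      · intro y hy
        simp only [mem_singleton_iff, mem_empty_iff_false, iff_false]
        rintro rfl
        exact hx ⟨lt_of_le_of_ne hy.1 (Ne.symm h0), hy.2⟩

lemma IsMink.self (h : IsMink μ) : (2 : ℝ≥0∞) • μ =
    μ.map (fun x : ℝ => x / (1 + x)) + μ.map (fun x : ℝ => 1 / (1 + x)) := by
  have : IsFiniteMeasure ((2 : ℝ≥0∞) • μ) := ⟨by simp⟩
  apply Measure.ext_of_Iic
  intro y
  rw [Measure.add_apply, Measure.map_apply (by fun_prop) measurableSet_Iic,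
    Measure.map_apply (by fun_prop) measurableSet_Iic, Measure.smul_apply, smul_eq_mul]
  have e1 : ∀ x ∈ Icc (0 : ℝ) 1, x ∈ (fun x : ℝ => x / (1 + x)) ⁻¹' Iic y ↔ x * (1 - y) ≤ y := by
    intro x hx
    have := hx.1
    simp only [mem_preimage, mem_Iic]
    rw [div_le_iff₀ (by positivity)]
    constructor <;> intro <;> linarith
  have e2 : ∀ x ∈ Icc (0 : ℝ) 1, x ∈ (fun x : ℝ => 1 / (1 + x)) ⁻¹' Iic y ↔ 1 ≤ y * (1 + x) := by
    intro x hx
    have := hx.1
    simp only [mem_preimage, mem_Iic]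
    rw [div_le_iff₀ (by positivity)]
  rcases lt_or_ge y 0 with hy | hy
  · rw [h.congr (S := Iic y) (T := ∅), h.congr (S := _ ⁻¹' _) (T := ∅),
      h.congr (S := _ ⁻¹' _) (T := ∅)]
    · simp
    · intro x hx
      rw [e2 x hx]; simp; nlinarith [hx.1]
    · intro x hx
      rw [e1 x hx]; simp; nlinarith [hx.1]
    · intro x hx; simp; linarith [hx.1]
  rcases lt_or_ge y (1 / 2) with hy' | hy'
  · have hm : y / (1 - y) ∈ Icc (0 : ℝ) 1 :=
      ⟨div_nonneg hy (by linarith), by rw [div_le_one (by linarith)]; linarith⟩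
    rw [h.congr (S := Iic y) (T := Icc 0 y), h.congr (S := _ ⁻¹' _) (T := Icc 0 (y / (1 - y))),
      h.congr (S := _ ⁻¹' _) (T := ∅), h y ⟨hy, by linarith⟩, h _ hm]
    · have := mink_g hm
      have e : y / (1 - y) / (1 + y / (1 - y)) = y := by
        have : 1 - y ≠ 0 := by linarith
        field_simp; ring
      rw [e] at this
      rw [this, measure_empty, add_zero, ← ENNReal.ofReal_ofNat 2, ← ENNReal.ofReal_mul (by norm_num)]
      congr 1; ring
    · intro x hx
      rw [e2 x hx]; simp; nlinarith [hx.1, hx.2]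
    · intro x hx
      rw [e1 x hx, mem_Icc, le_div_iff₀ (by linarith)]; simp [hx.1]
    · intro x hx; simp [hx.1]
  rcases le_or_gt y 1 with hy'' | hy''
  · have hy0 : 0 < y := by linarith
    have hm : 1 / y - 1 ∈ Icc (0 : ℝ) 1 := by
      constructor
      · rw [sub_nonneg, le_div_iff₀ hy0]; linarith
      · rw [sub_le_iff_le_add, div_le_iff₀ hy0]; linarith
    rw [h.congr (S := Iic y) (T := Icc 0 y), h.congr (S := _ ⁻¹' _) (T := univ),
      h.congr (S := _ ⁻¹' _) (T := (Ico 0 (1 / y - 1))ᶜ), h y ⟨hy, hy''⟩]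
    · have := mink_h hm
      have e : 1 / (1 + (1 / y - 1)) = y := by field_simp; ring
      rw [e] at this
      have : NullSingletonClass μ := ⟨h.atom⟩
      rw [prob_compl_eq_one_sub measurableSet_Ico, measure_congr Ico_ae_eq_Icc, h _ hm,
        measure_univ, ← ENNReal.ofReal_ofNat 2, ← ENNReal.ofReal_mul (by norm_num),
        ← ENNReal.ofReal_one, ← ENNReal.ofReal_sub _ (h.nonneg hm), ← ENNReal.ofReal_add zero_le_one]
      · congr 1; linarith
      · have h3 : μ (Icc 0 (1 / y - 1)) ≤ 1 := prob_le_one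
        rw [h _ hm, ENNReal.ofReal_le_one] at h3
        linarith
    · intro x hx
      rw [e2 x hx, mem_compl_iff, mem_Ico, not_and, lt_sub_iff_add_lt, lt_div_iff₀ hy0]
      simp only [hx.1, not_lt, forall_const]
      constructor <;> intro <;> linarith
    · intro x hx
      rw [e1 x hx]; simp; nlinarith [hx.1, hx.2]
    · intro x hx; simp [hx.1]
  · rw [h.congr (S := Iic y) (T := univ), h.congr (S := _ ⁻¹' _) (T := univ),
      h.congr (S := _ ⁻¹' _) (T := univ)]
    · simp [one_add_one_eq_two]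
    · intro x hx
      rw [e2 x hx]; simp; nlinarith [hx.1]
    · intro x hx
      rw [e1 x hx]; simp; nlinarith [hx.1]
    · intro x hx; simp; linarith [hx.2]

end Pool.Agent.H.MP_bff676_an
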