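import Pool.Agent.H.MP_bff676_an.A

namespace Pool.Agent.H.MP_bff676_an

open MeasureTheory Set Filter Topology
open scoped ENNReal

/-- logarithmic kernel -/
noncomputable def ph (d : ℝ) : ℝ≥0∞ := if d = 0 then ⊤ else ENNReal.ofReal (-Real.log d)

lemma ph_meas : Measurable ph :=
  Measurable.ite (measurableSet_singleton 0) measurable_const (by fun_prop)

/-- the constant `log 4` -/
noncomputable def c4 : ℝ≥0∞ := ENNReal.ofReal (Real.log 4)

lemma c4_ne : c4 ≠ ⊤ := ENNReal.ofReal_ne_top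

lemma ph_le {d d' : ℝ} (h : |d| ≤ 4 * |d'|) : ph d' ≤ c4 + ph d := by
  by_cases hd : d = 0
  · simp [ph, hd]
  have h1 : 0 < |d| := abs_pos.mpr hd
  have h2 : 0 < |d'| := by linarith
  have hd' : d' ≠ 0 := abs_pos.mp h2
  simp only [ph, hd, hd', if_false, c4]
  refine le_trans (ENNReal.ofReal_le_ofReal ?_) ENNReal.ofReal_add_le
  have := Real.log_le_log h1 h
  rw [Real.log_mul (by norm_num) h2.ne', Real.log_abs, Real.log_abs] at this
  linarith

lemma ph_le' {d' : ℝ} (h : 1 ≤ 4 * |d'|) : ph d' ≤ c4 := by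
  have := ph_le (d := 1) (d' := d') (by simpa using h)
  simpa [ph] using this

variable {μ : Measure ℝ} [IsProbabilityMeasure μ]

lemma IsMink.lint (h : IsMink μ) {F : ℝ → ℝ≥0∞} (hF : Measurable F) :
    2 * ∫⁻ x, F x ∂μ = ∫⁻ x, F (x / (1 + x)) ∂μ + ∫⁻ x, F (1 / (1 + x)) ∂μ := by
  have := congrArg (fun ν : Measure ℝ => ∫⁻ x, F x ∂ν) h.self
  simp only [lintegral_smul_measure, lintegral_add_measure, smul_eq_mul] at this
  rw [this, lintegral_map hF (by fun_prop), lintegral_map hF (by fun_prop)]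

lemma IsMink.mono (h : IsMink μ) {F G : ℝ → ℝ≥0∞} (hFG : ∀ x ∈ Icc (0 : ℝ) 1, F x ≤ c4 + G x) :
    ∫⁻ x, F x ∂μ ≤ c4 + ∫⁻ x, G x ∂μ := by
  have : ∀ᵐ x ∂μ, x ∈ Icc (0 : ℝ) 1 := h.compl
  calc ∫⁻ x, F x ∂μ ≤ ∫⁻ x, c4 + G x ∂μ := lintegral_mono_ae (this.mono hFG)
    _ = _ := by rw [lintegral_add_left measurable_const]; simp

lemma min_le_of {T u v : ℝ≥0∞} (h : u ≤ c4 + v) : min T u ≤ c4 + min T v := by
  rcases le_total T v with h1 | h1
  · rw [min_eq_left h1]; exact (min_le_left _ _).trans le_add_self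
  · rw [min_eq_right h1]; exact (min_le_right _ _).trans h

lemma IsMink.pot_trunc (h : IsMink μ) (T : ℕ) :
    ∀ a ∈ Icc (0 : ℝ) 1, ∫⁻ x, min (T : ℝ≥0∞) (ph (x - a)) ∂μ ≤ 4 * c4 := by
  obtain ⟨P, hP⟩ : ∃ P : ℝ → ℝ≥0∞, P = fun a => ∫⁻ x, min (T : ℝ≥0∞) (ph (x - a)) ∂μ := ⟨_, rfl⟩
  have hm : ∀ a, Measurable fun x => min (T : ℝ≥0∞) (ph (x - a)) := fun a =>
    measurable_const.min (ph_meas.comp (by fun_prop))
  have hT : ∀ a, P a ≤ T := by
    intro a
    calc P a ≤ ∫⁻ _, (T : ℝ≥0∞) ∂μ := by rw [hP]; exact lintegral_mono fun x => min_le_left _ _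
      _ = T := by simp
  have step : ∀ (u : ℝ → ℝ) (a b : ℝ), (∀ x ∈ Icc (0 : ℝ) 1, |x - b| ≤ 4 * |u x - a|) →
      ∫⁻ x, min (T : ℝ≥0∞) (ph (u x - a)) ∂μ ≤ c4 + P b := by
    intro u a b hu
    rw [hP]
    exact h.mono fun x hx => min_le_of (ph_le (hu x hx))
  have step' : ∀ (u : ℝ → ℝ) (a : ℝ), (∀ x ∈ Icc (0 : ℝ) 1, 1 ≤ 4 * |u x - a|) →
      ∫⁻ x, min (T : ℝ≥0∞) (ph (u x - a)) ∂μ ≤ c4 := by
    intro u a hu
    have := h.mono (F := fun x => min (T : ℝ≥0∞) (ph (u x - a))) (G := fun _ => 0)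
      fun x hx => (min_le_right _ _).trans (by simpa using ph_le' (hu x hx))
    simpa using this
  have two : ∀ a, 2 * P a = ∫⁻ x, min (T : ℝ≥0∞) (ph (x / (1 + x) - a)) ∂μ +
      ∫⁻ x, min (T : ℝ≥0∞) (ph (1 / (1 + x) - a)) ∂μ := fun a => by
    rw [hP]; exact h.lint (hm a)
  have fin : ∀ a, P a ≠ ⊤ := fun a => ne_top_of_le_ne_top (by simp) (hT a)
  have P0 : P 0 ≤ 2 * c4 := by
    have h1 := step (fun x => x / (1 + x)) 0 0 (fun x hx => by
      have := hx.1
      rw [sub_zero, sub_zero, abs_of_nonneg this, abs_of_nonneg (by positivity), mul_div_assoc',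
        le_div_iff₀ (by positivity)]
      nlinarith [hx.2])
    have h2 := step' (fun x => 1 / (1 + x)) 0 (fun x hx => by
      have := hx.1
      rw [sub_zero, abs_of_nonneg (by positivity), mul_div_assoc', le_div_iff₀ (by positivity)]
      nlinarith [hx.2])
    have h3 : P 0 + P 0 ≤ 2 * c4 + P 0 := by
      rw [← two_mul, two 0]
      calc _ ≤ c4 + P 0 + c4 := add_le_add h1 h2
        _ = _ := by ring
    exact (ENNReal.add_le_add_iff_right (fin 0)).mp h3
  have P1 : P 1 ≤ 2 * c4 := by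
    have h1 := step' (fun x => x / (1 + x)) 1 (fun x hx => by
      have := hx.1
      have e : x / (1 + x) - 1 = -(1 / (1 + x)) := by field_simp; ring
      rw [e, abs_neg, abs_of_nonneg (by positivity), mul_div_assoc', le_div_iff₀ (by positivity)]
      nlinarith [hx.2])
    have h2 := step (fun x => 1 / (1 + x)) 1 0 (fun x hx => by
      have := hx.1
      have e : 1 / (1 + x) - 1 = -(x / (1 + x)) := by field_simp; ring
      rw [e, abs_neg, sub_zero, abs_of_nonneg this, abs_of_nonneg (by positivity), mul_div_assoc',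
        le_div_iff₀ (by positivity)]
      nlinarith [hx.2])
    have h3 : 2 * P 1 ≤ 2 * (2 * c4) := by
      rw [two 1]
      calc _ ≤ c4 + (c4 + 2 * c4) := add_le_add h1 (h2.trans (by gcongr))
        _ = _ := by ring
    exact (ENNReal.mul_le_mul_iff_right (by norm_num) (by norm_num)).mp h3
  obtain ⟨S, hS⟩ : ∃ S, S = ⨆ a ∈ Icc (0 : ℝ) 1, P a := ⟨_, rfl⟩
  have hle : ∀ a ∈ Icc (0 : ℝ) 1, P a ≤ S := fun a ha => hS ▸ le_iSup₂ (f := fun a _ => P a) a ha
  have hSf : S ≠ ⊤ := ne_top_of_le_ne_top (ENNReal.natCast_ne_top T) (hS ▸ iSup₂_le fun a _ => hT a)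
  have key : ∀ a ∈ Icc (0 : ℝ) 1, 2 * P a ≤ 4 * c4 + S := by
    intro a ha
    rw [two a]
    rcases le_total a (1 / 2) with h1 | h1
    · have hb : 0 < 1 - a := by linarith
      have hm' : a / (1 - a) ∈ Icc (0 : ℝ) 1 :=
        ⟨div_nonneg ha.1 hb.le, by rw [div_le_one hb]; linarith⟩
      have h2 := step (fun x => x / (1 + x)) a (a / (1 - a)) (fun x hx => by
        have := hx.1
        have e : x - a / (1 - a) = (1 + x) / (1 - a) * (x / (1 + x) - a) := by field_simp; ring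
        rw [e, abs_mul, abs_of_nonneg (by positivity)]
        gcongr
        rw [div_le_iff₀ hb]; linarith [hx.2])
      have h3 := step (fun x => 1 / (1 + x)) a 1 (fun x hx => by
        have := hx.1
        have e : 1 - x ≤ 4 * (1 / (1 + x) - a) := by
          have : (1 - x) / 4 + 1 / 2 ≤ 1 / (1 + x) := by
            rw [le_div_iff₀ (by positivity)]; nlinarith [hx.2, sq_nonneg (1 - x)]
          linarith
        rw [abs_sub_comm, abs_of_nonneg (by linarith [hx.2])]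
        exact e.trans (by gcongr; exact le_abs_self _))
      calc _ ≤ (c4 + S) + (c4 + 2 * c4) :=
            add_le_add (h2.trans (by gcongr; exact hle _ hm')) (h3.trans (by gcongr))
        _ = _ := by ring
    · have hb : 0 < a := by linarith
      have hm' : 1 / a - 1 ∈ Icc (0 : ℝ) 1 := by
        constructor
        · rw [sub_nonneg, le_div_iff₀ hb]; linarith [ha.2]
        · rw [sub_le_iff_le_add, div_le_iff₀ hb]; linarith
      have h2 := step (fun x => 1 / (1 + x)) a (1 / a - 1) (fun x hx => by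
        have := hx.1
        have e : x - (1 / a - 1) = -((1 + x) / a) * (1 / (1 + x) - a) := by field_simp; ring
        rw [e, abs_mul, abs_neg, abs_of_nonneg (by positivity)]
        gcongr
        rw [div_le_iff₀ hb]; linarith [hx.2])
      have h3 := step (fun x => x / (1 + x)) a 1 (fun x hx => by
        have := hx.1
        have e : 1 - x ≤ 4 * (a - x / (1 + x)) := by
          have : x / (1 + x) ≤ 1 / 2 - (1 - x) / 4 := by
            rw [div_le_iff₀ (by positivity)]; nlinarith [hx.2, sq_nonneg (1 - x)]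
          linarith
        rw [abs_sub_comm, abs_of_nonneg (by linarith [hx.2]), abs_sub_comm]
        exact e.trans (by gcongr; exact le_abs_self _))
      calc _ ≤ (c4 + 2 * c4) + (c4 + S) :=
            add_le_add (h3.trans (by gcongr)) (h2.trans (by gcongr; exact hle _ hm'))
        _ = _ := by ring
  have h4 : S + S ≤ 4 * c4 + S := by
    rw [← two_mul]
    conv_lhs => rw [hS]
    simp only [ENNReal.mul_iSup]
    exact iSup₂_le key
  have h5 := (ENNReal.add_le_add_iff_right hSf).mp h4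
  intro a ha
  exact (show _ = P a by rw [hP]).le.trans ((hle a ha).trans h5)

lemma IsMink.pot (h : IsMink μ) {a : ℝ} (ha : a ∈ Icc (0 : ℝ) 1) :
    ∫⁻ x, ph (x - a) ∂μ ≤ 4 * c4 := by
  have e : ∀ x, ph (x - a) = ⨆ T : ℕ, min (T : ℝ≥0∞) (ph (x - a)) := by
    intro x
    rw [← iSup_inf_eq, ENNReal.iSup_natCast, top_inf_eq]
  rw [lintegral_congr e, lintegral_iSup (f := fun (T : ℕ) x => min (T : ℝ≥0∞) (ph (x - a)))
    (fun T => measurable_const.min (ph_meas.comp (by fun_prop)))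
    (fun S T hST x => min_le_min_right _ (by exact_mod_cast hST))]
  exact iSup_le fun T => h.pot_trunc T a ha

lemma IsMink.far (h : IsMink μ) {ι : Type} (I : Finset ι) (a : ι → ℝ) (ha : ∀ i, a i ∈ Icc (0 : ℝ) 1)
    {E : Set ℝ} (hE : μ Eᶜ ≤ 2⁻¹) :
    ∃ x ∈ E ∩ Icc 0 1, ((4 : ℝ) ^ 8)⁻¹ ^ I.card ≤ ∏ i ∈ I, |x - a i| := by
  have h1 : 2⁻¹ ≤ μ (E ∩ Icc 0 1) := by
    rw [h.congr (T := E) (fun x hx => by simp [hx])]
    have : (2⁻¹ : ℝ≥0∞) + 2⁻¹ ≤ μ E + 2⁻¹ := by
      rw [ENNReal.inv_two_add_inv_two, ← measure_univ (μ := μ), ← union_compl_self E]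
      exact (measure_union_le _ _).trans (by gcongr)
    exact (ENNReal.add_le_add_iff_right (by simp)).mp this
  have hm : Measurable fun x => ∑ i ∈ I, ph (x - a i) :=
    Finset.measurable_sum _ fun i _ => ph_meas.comp (by fun_prop)
  obtain ⟨x, hx, hle⟩ := exists_le_setLAverage (μ := μ) (s := E ∩ Icc 0 1)
    (f := fun x => ∑ i ∈ I, ph (x - a i)) (ne_of_gt (lt_of_lt_of_le (by simp) h1))
    (measure_ne_top _ _) hm.aemeasurable
  refine ⟨x, hx, ?_⟩
  have h2 : ∑ i ∈ I, ph (x - a i) ≤ ENNReal.ofReal (I.card * (8 * Real.log 4)) := by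
    refine hle.trans ?_
    rw [setLAverage_eq]
    refine ENNReal.div_le_of_le_mul ?_
    calc _ ≤ ∫⁻ x, ∑ i ∈ I, ph (x - a i) ∂μ := setLIntegral_le_lintegral _ _
      _ = ∑ i ∈ I, ∫⁻ x, ph (x - a i) ∂μ :=
        lintegral_finsetSum _ fun i _ => ph_meas.comp (by fun_prop)
      _ ≤ ∑ i ∈ I, 4 * c4 := Finset.sum_le_sum fun i _ => h.pot (ha i)
      _ = ENNReal.ofReal (I.card * (8 * Real.log 4)) * 2⁻¹ := by
        rw [Finset.sum_const, nsmul_eq_mul, ENNReal.ofReal_mul (by positivity),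
          ENNReal.ofReal_mul (by positivity), ENNReal.ofReal_natCast, c4, ENNReal.ofReal_ofNat,
          show (8 : ℝ≥0∞) = 4 * 2 by norm_num]
        have : (2 : ℝ≥0∞) * 2⁻¹ = 1 := ENNReal.mul_inv_cancel (by norm_num) (by norm_num)
        calc _ = I.card * (4 * ENNReal.ofReal (Real.log 4)) * (2 * 2⁻¹) := by rw [this, mul_one]
          _ = _ := by ring
      _ ≤ _ := by gcongr
  have hne : ∀ i ∈ I, x - a i ≠ 0 := by
    intro i hi h0
    have := (Finset.single_le_sum (f := fun i => ph (x - a i)) (fun _ _ => zero_le) hi).trans h2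
    rw [h0, ph, if_pos rfl] at this
    exact ENNReal.ofReal_ne_top (top_le_iff.mp this)
  have h3 : ENNReal.ofReal (∑ i ∈ I, -Real.log |x - a i|) ≤ ∑ i ∈ I, ph (x - a i) := by
    rw [ENNReal.ofReal_sum_of_nonneg]
    · refine Finset.sum_le_sum fun i hi => ?_
      simp [ph, hne i hi]
    · intro i _
      rw [neg_nonneg]
      refine Real.log_nonpos (abs_nonneg _) (abs_le.mpr ⟨?_, ?_⟩) <;>
        linarith [hx.2.1, hx.2.2, (ha i).1, (ha i).2]
  have h4 := (ENNReal.ofReal_le_ofReal_iff (by positivity)).mp (h3.trans h2)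
  rw [← Real.log_le_log_iff (by positivity)
    (Finset.prod_pos fun i hi => abs_pos.mpr (hne i hi)),
    Real.log_prod (fun i hi => (abs_pos.mpr (hne i hi)).ne'), Real.log_pow, Real.log_inv,
    Real.log_pow]
  rw [Finset.sum_neg_distrib] at h4
  push_cast
  linarith

/-- Moebius maps -/
noncomputable def mob (a b p q t : ℝ) : ℝ := (a * (1 - t) + b * t) / (p * (1 - t) + q * t)

lemma mob_meas (a b p q : ℝ) : Measurable (mob a b p q) := by
  unfold mob; fun_prop

lemma IsMink.half (h : IsMink μ) {S : Set ℝ} (hS : MeasurableSet S) :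
    μ ((fun x : ℝ => x / (1 + x)) ⁻¹' S) ≤ 2 * μ S ∧ μ ((fun x : ℝ => 1 / (1 + x)) ⁻¹' S) ≤ 2 * μ S := by
  have := congrArg (fun ν : Measure ℝ => ν S) h.self
  simp only [Measure.smul_apply, smul_eq_mul, Measure.add_apply] at this
  rw [Measure.map_apply (by fun_prop) hS, Measure.map_apply (by fun_prop) hS] at this
  rw [this]
  exact ⟨le_self_add, le_add_self⟩

lemma IsMink.farey (h : IsMink μ) {x : ℝ} (hx : x ∈ Icc (0 : ℝ) 1) (N : ℕ) :
    ∃ a b p q : ℝ, 1 ≤ p ∧ p ≤ q ∧ |b * p - a * q| = 1 ∧ (N + 1 : ℝ) ≤ q ∧ q ≤ 2 * (N + 1) ∧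
      (∃ s ∈ Icc (0 : ℝ) 1, mob a b p q s = x) ∧
      ∀ S, MeasurableSet S → μ (mob a b p q ⁻¹' S) ≤ 2 ^ N * μ S := by
  induction N with
  | zero =>
    have e : mob 0 1 1 1 = id := by funext t; simp [mob]
    exact ⟨0, 1, 1, 1, le_rfl, le_rfl, by simp, by simp, by simp, ⟨x, hx, by simp [e]⟩,
      fun S _ => by simp [e]⟩
  | succ N ih =>
    obtain ⟨a, b, p, q, h1, h2, h3, h4, h5, ⟨s, hs, hsx⟩, h6⟩ := ih
    push_cast
    by_cases hq : (N + 1 + 1 : ℝ) ≤ q
    · refine ⟨a, b, p, q, h1, h2, h3, hq, by linarith, ⟨s, hs, hsx⟩, fun S hS => (h6 S hS).trans ?_⟩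
      gcongr
      · exact one_le_two
      · exact Nat.le_succ N
    push Not at hq
    have fin : ∀ (u : ℝ → ℝ) (w : ℝ → ℝ), (∀ t ∈ Icc (0 : ℝ) 1, w t = mob a b p q (u t)) →
        (∀ S, MeasurableSet S → μ (u ⁻¹' S) ≤ 2 * μ S) →
        ∀ S, MeasurableSet S → μ (w ⁻¹' S) ≤ 2 ^ (N + 1) * μ S := by
      intro u w hw hu S hS
      rw [h.congr (T := u ⁻¹' (mob a b p q ⁻¹' S)) (fun t ht => by simp [hw t ht])]
      calc _ ≤ 2 * μ (mob a b p q ⁻¹' S) := hu _ (mob_meas a b p q hS)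
        _ ≤ 2 * (2 ^ N * μ S) := by gcongr; exact h6 S hS
        _ = _ := by ring
    rcases le_total s (1 / 2) with hs' | hs'
    · have e : ∀ t ∈ Icc (0 : ℝ) 1, mob a (a + b) p (p + q) t = mob a b p q (t / (1 + t)) := by
        intro t ht
        have := ht.1
        have e1 : a * (1 - t / (1 + t)) + b * (t / (1 + t)) = (a * (1 - t) + (a + b) * t) / (1 + t) := by
          field_simp; ring
        have e2 : p * (1 - t / (1 + t)) + q * (t / (1 + t)) = (p * (1 - t) + (p + q) * t) / (1 + t) := by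
          field_simp; ring
        rw [mob, mob, e1, e2, div_div_div_cancel_right₀ (by positivity)]
      have hb : 0 < 1 - s := by linarith
      have hm : s / (1 - s) ∈ Icc (0 : ℝ) 1 :=
        ⟨div_nonneg hs.1 hb.le, by rw [div_le_one hb]; linarith⟩
      refine ⟨a, a + b, p, p + q, h1, by linarith, by rw [← h3]; congr 1; ring, by linarith,
        by linarith, ⟨_, hm, ?_⟩, fin _ _ e fun S hS => (h.half hS).1⟩
      rw [e _ hm, ← hsx]
      congr 1
      field_simp; ring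
    · have e : ∀ t ∈ Icc (0 : ℝ) 1, mob b (a + b) q (p + q) t = mob a b p q (1 / (1 + t)) := by
        intro t ht
        have := ht.1
        have e1 : a * (1 - 1 / (1 + t)) + b * (1 / (1 + t)) = (b * (1 - t) + (a + b) * t) / (1 + t) := by
          field_simp; ring
        have e2 : p * (1 - 1 / (1 + t)) + q * (1 / (1 + t)) = (q * (1 - t) + (p + q) * t) / (1 + t) := by
          field_simp; ring
        rw [mob, mob, e1, e2, div_div_div_cancel_right₀ (by positivity)]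
      have hb : 0 < s := by linarith
      have hm : 1 / s - 1 ∈ Icc (0 : ℝ) 1 := by
        constructor
        · rw [sub_nonneg, le_div_iff₀ hb]; linarith [hs.2]
        · rw [sub_le_iff_le_add, div_le_iff₀ hb]; linarith
      refine ⟨b, a + b, q, p + q, by linarith, by linarith,
        by rw [← h3, abs_sub_comm]; congr 1; ring, by linarith,
        by linarith, ⟨_, hm, ?_⟩, fin _ _ e fun S hS => (h.half hS).2⟩
      rw [e _ hm, ← hsx]
      congr 1
      field_simp; ring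

lemma mob_dist {a b p q s t : ℝ} (h1 : 1 ≤ p) (h2 : p ≤ q) (h3 : |b * p - a * q| = 1)
    (hs : s ∈ Icc (0 : ℝ) 1) (ht : t ∈ Icc (0 : ℝ) 1) :
    |s - t| ≤ q ^ 2 * |mob a b p q s - mob a b p q t| ∧ q * |mob a b p q s - mob a b p q t| ≤ 1 := by
  have D : ∀ u ∈ Icc (0 : ℝ) 1, 1 ≤ p * (1 - u) + q * u ∧ p * (1 - u) + q * u ≤ q ∧
      q * u ≤ p * (1 - u) + q * u := by
    intro u hu
    refine ⟨?_, ?_, ?_⟩ <;> nlinarith [hu.1, hu.2]
  obtain ⟨s1, s2, s3⟩ := D s hs
  obtain ⟨t1, t2, t3⟩ := D t ht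
  obtain ⟨A, hA⟩ : ∃ A, A = p * (1 - s) + q * s := ⟨_, rfl⟩
  obtain ⟨B, hB⟩ : ∃ B, B = p * (1 - t) + q * t := ⟨_, rfl⟩
  have e : mob a b p q s - mob a b p q t = (s - t) * (b * p - a * q) / (A * B) := by
    rw [mob, mob, div_sub_div _ _ (by linarith) (by linarith), hA, hB]
    congr 1; ring
  rw [← hA] at s1 s2 s3
  rw [← hB] at t1 t2 t3
  have hAB : 0 < A * B := by positivity
  rw [e, abs_div, abs_mul, h3, mul_one, abs_of_pos hAB, mul_div_assoc', mul_div_assoc',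
    le_div_iff₀ hAB, div_le_one hAB]
  constructor
  · rw [mul_comm]
    gcongr
    nlinarith
  · have hq : 0 ≤ q := by linarith
    rcases le_total s t with h | h
    · rw [abs_sub_comm, abs_of_nonneg (by linarith)]
      nlinarith [hs.1, mul_nonneg hq hs.1]
    · rw [abs_of_nonneg (by linarith)]
      nlinarith [ht.1, mul_nonneg hq ht.1]

lemma IsMink.near (h : IsMink μ) (N : ℕ) {K : Set ℝ} (hK : MeasurableSet K)
    (hKc : μ Kᶜ ≤ (2 ^ (N + 1))⁻¹) {x : ℝ} (hx : x ∈ Icc (0 : ℝ) 1) {ι : Type} (I : Finset ι)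
    (c : ι → ℂ) : ∃ z ∈ K, (N + 1 : ℝ) * |z - x| ≤ 1 ∧
      ((4 : ℝ) ^ 8 * (8 * (N + 1) ^ 2))⁻¹ ^ I.card ≤ ∏ i ∈ I, ‖(z : ℂ) - c i‖ := by
  obtain ⟨a, b, p, q, h1, h2, h3, h4, h5, ⟨s, hs, hsx⟩, h6⟩ := h.farey hx N
  have hcont : ContinuousOn (mob a b p q) (Icc 0 1) := by
    unfold mob
    refine ContinuousOn.div (by fun_prop) (by fun_prop) fun u hu => ?_
    nlinarith [hu.1, hu.2]
  have hmin : ∀ i, ∃ t ∈ Icc (0 : ℝ) 1, ∀ u ∈ Icc (0 : ℝ) 1,
      ‖(mob a b p q t : ℂ) - c i‖ ≤ ‖(mob a b p q u : ℂ) - c i‖ := by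
    intro i
    obtain ⟨t, ht, hm⟩ := isCompact_Icc.exists_isMinOn ⟨0, left_mem_Icc.mpr zero_le_one⟩
      (f := fun t => ‖(mob a b p q t : ℂ) - c i‖)
      (((Complex.continuous_ofReal.comp_continuousOn hcont).sub continuousOn_const).norm)
    exact ⟨t, ht, fun u hu => hm hu⟩
  choose t ht hmin using hmin
  obtain ⟨u, ⟨hu1, hu2⟩, hu⟩ := h.far I t ht (E := mob a b p q ⁻¹' K) (by
    refine (h6 _ hK.compl).trans ?_
    calc _ ≤ 2 ^ N * ((2 : ℝ≥0∞) ^ (N + 1))⁻¹ := by gcongr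
      _ = 2⁻¹ := by
        rw [pow_succ, ENNReal.mul_inv (by simp) (by simp), ← mul_assoc,
          ENNReal.mul_inv_cancel (by simp) (by simp), one_mul])
  refine ⟨_, hu1, ?_, ?_⟩
  · rw [← hsx]
    exact le_trans (by gcongr) (mob_dist h1 h2 h3 hu2 hs).2
  · have key : ∀ i, |u - t i| * (8 * (N + 1 : ℝ) ^ 2)⁻¹ ≤ ‖(mob a b p q u : ℂ) - c i‖ := by
      intro i
      have e1 := (mob_dist h1 h2 h3 hu2 (ht i)).1
      have e2 : |mob a b p q u - mob a b p q (t i)| ≤ 2 * ‖(mob a b p q u : ℂ) - c i‖ := by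
        rw [← Real.norm_eq_abs, ← Complex.norm_real]
        have := norm_sub_le ((mob a b p q u : ℂ) - c i) ((mob a b p q (t i) : ℂ) - c i)
        rw [sub_sub_sub_cancel_right] at this
        push_cast
        linarith [hmin i u hu2]
      have hq : 0 ≤ q := by linarith
      rw [← div_eq_mul_inv, div_le_iff₀ (by positivity)]
      calc _ ≤ _ := e1
        _ ≤ (2 * (N + 1)) ^ 2 * (2 * ‖(mob a b p q u : ℂ) - c i‖) := by gcongr
        _ = _ := by ring
    calc _ = ((4 : ℝ) ^ 8)⁻¹ ^ I.card * (8 * (N + 1 : ℝ) ^ 2)⁻¹ ^ I.card := by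
          rw [mul_inv, mul_pow]
      _ ≤ (∏ i ∈ I, |u - t i|) * (8 * (N + 1 : ℝ) ^ 2)⁻¹ ^ I.card := by gcongr
      _ = ∏ i ∈ I, (|u - t i| * (8 * (N + 1 : ℝ) ^ 2)⁻¹) := by
          rw [Finset.prod_mul_distrib, Finset.prod_const]
      _ ≤ _ := Finset.prod_le_prod (fun i _ => by positivity) fun i _ => key i

end Pool.Agent.H.MP_bff676_an
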