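import Pool.Agent.H.MP_bff676_an.B

namespace Pool.Agent.H.MP_bff676_an

open MeasureTheory Set Filter Topology Polynomial
open scoped ENNReal

lemma factor (q : ℂ[X]) : ∃ a : Fin q.natDegree → ℂ, ∀ z,
    q.eval z = q.leadingCoeff * ∏ i, (z - a i) := by
  obtain ⟨l, hl⟩ := Quotient.exists_rep q.roots
  have hl' : (l : Multiset ℂ) = q.roots := hl
  have hlen : l.length = q.natDegree := by
    rw [← IsAlgClosed.card_roots_eq_natDegree, ← hl', Multiset.coe_card]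
  rw [← hlen]
  refine ⟨l.get, fun z => ?_⟩
  conv_lhs => rw [(IsAlgClosed.splits q).eq_prod_roots, ← hl']
  rw [eval_mul, eval_C, eval_multiset_prod, Multiset.map_map, Multiset.map_coe, Multiset.prod_coe]
  congr 1
  conv_lhs => rw [← List.ofFn_get l, List.map_ofFn, List.prod_ofFn]
  simp

variable {n : ℕ} {L : ℂ} {a : Fin n → ℂ} {M : ℝ}

lemma bw (hM : ∀ x ∈ Icc (0 : ℝ) 1, ‖L * ∏ i, ((x : ℂ) - a i)‖ ≤ M) {w : ℂ} (hw : ‖w‖ ≤ 1) :
    ‖L * ∏ i, ((w + 1) ^ 2 / 4 - a i * w)‖ ≤ M := by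
  refine Complex.norm_le_of_forall_mem_frontier_norm_le (U := Metric.ball (0 : ℂ) 1)
    (f := fun w => L * ∏ i, ((w + 1) ^ 2 / 4 - a i * w)) Metric.isBounded_ball
    (Differentiable.diffContOnCl (by fun_prop)) ?_ (by
      rw [closure_ball _ one_ne_zero]; simpa using hw)
  intro z hz
  rw [frontier_ball _ one_ne_zero, mem_sphere_zero_iff_norm] at hz
  have hre := Complex.abs_re_le_norm z
  rw [hz, abs_le] at hre
  have e : ∀ i, (z + 1) ^ 2 / 4 - a i * z = ((((1 + z.re) / 2 : ℝ) : ℂ) - a i) * z := by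
    intro i
    have h1 : z * (starRingEnd ℂ) z = 1 := by
      rw [Complex.mul_conj, Complex.normSq_eq_norm_sq, hz]; simp
    have h2 : (z.re : ℂ) = (z + (starRingEnd ℂ) z) / 2 := Complex.re_eq_add_conj z
    push_cast
    rw [h2]
    linear_combination (-1 / 4 : ℂ) * h1
  simp only [e, Finset.prod_mul_distrib]
  rw [← mul_assoc, norm_mul, norm_prod Finset.univ fun _ => z]
  simp only [hz, Finset.prod_const_one, mul_one]
  exact hM _ ⟨by linarith, by linarith⟩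

lemma lead_le (hM : ∀ x ∈ Icc (0 : ℝ) 1, ‖L * ∏ i, ((x : ℂ) - a i)‖ ≤ M) : ‖L‖ ≤ 4 ^ n * M := by
  have := bw hM (w := 0) (by simp)
  simp only [zero_add, one_pow, mul_zero, sub_zero, Finset.prod_const, Finset.card_univ,
    Fintype.card_fin, norm_mul, norm_pow, norm_div, norm_one, Complex.norm_ofNat] at this
  rw [one_div, inv_pow, ← div_eq_mul_inv, div_le_iff₀ (by positivity)] at this
  linarith

lemma exists_w (z : ℂ) : ∃ w : ℂ, w ≠ 0 ∧ ‖w‖ ≤ 1 ∧ (w + 1) ^ 2 = 4 * z * w := by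
  obtain ⟨y, hy⟩ := IsAlgClosed.exists_pow_nat_eq ((2 * z - 1) ^ 2 - 1) two_pos
  have hp : (2 * z - 1 + y) * (2 * z - 1 - y) = 1 := by linear_combination -hy
  have hn := congrArg norm hp
  rw [norm_mul, norm_one] at hn
  by_cases h : ‖2 * z - 1 + y‖ ≤ 1
  · exact ⟨_, left_ne_zero_of_mul_eq_one hp, h, by linear_combination hy⟩
  · refine ⟨_, right_ne_zero_of_mul_eq_one hp, ?_, by linear_combination hy⟩
    push Not at h
    nlinarith [norm_nonneg (2 * z - 1 - y)]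

lemma bw' (hM : ∀ x ∈ Icc (0 : ℝ) 1, ‖L * ∏ i, ((x : ℂ) - a i)‖ ≤ M) {u x : ℝ} (hu : 0 < u)
    (hu' : u ≤ 3 / 4) (hx : x ∈ Icc (0 : ℝ) 1) {z : ℂ} (hz : ‖z - x‖ = u ^ 2) :
    ‖L * ∏ i, (z - a i)‖ ≤ M * (1 + 4 * u) ^ n := by
  obtain ⟨w, h0, h1, hw⟩ := exists_w z
  have hp : 0 < ‖w‖ := norm_pos_iff.mpr h0
  have h2 := bw hM h1
  have e : ∀ i, (w + 1) ^ 2 / 4 - a i * w = (z - a i) * w := fun i => by
    linear_combination hw / 4
  simp only [e, Finset.prod_mul_distrib] at h2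
  rw [← mul_assoc, norm_mul, Finset.prod_const, Finset.card_univ, Fintype.card_fin, norm_pow] at h2
  have h3 : 1 ≤ (1 + 4 * u) * ‖w‖ := by
    have a1 : ‖w + 1‖ ^ 2 = 4 * ‖z‖ * ‖w‖ := by
      rw [← norm_pow, hw]; simp
    have a2 : ‖w - 1‖ ^ 2 = 4 * ‖z - 1‖ * ‖w‖ := by
      rw [← norm_pow, show (w - 1) ^ 2 = 4 * (z - 1) * w by linear_combination hw]; simp
    have a3 := parallelogram_law_with_norm ℂ w 1
    have a4 : ‖z‖ ≤ u ^ 2 + x := by
      have := norm_add_le (z - x) x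
      rwa [sub_add_cancel, hz, Complex.norm_real, Real.norm_of_nonneg hx.1] at this
    have a5 : ‖z - 1‖ ≤ u ^ 2 + (1 - x) := by
      have := norm_sub_le (z - x) ((1 - x : ℝ) : ℂ)
      rw [hz, Complex.norm_real, Real.norm_of_nonneg (by linarith [hx.2])] at this
      have e : z - x - ((1 - x : ℝ) : ℂ) = z - 1 := by push_cast; ring
      rwa [e] at this
    rw [norm_one] at a3
    obtain ⟨r, hr⟩ : ∃ r, r = ‖w‖ := ⟨_, rfl⟩
    rw [← hr] at a1 a2 a3 hp h1 ⊢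
    have a6 : (1 - r) ^ 2 ≤ 4 * u ^ 2 * r := by nlinarith
    by_contra hc
    push Not at hc
    have a7 : 4 * u * r < 1 - r := by linarith
    have a8 : (4 * u * r) ^ 2 < (1 - r) ^ 2 := by gcongr
    have a9 : 4 * r < 1 := by
      by_contra h4
      push Not at h4
      nlinarith [mul_pos (mul_pos hu hu) hp]
    nlinarith
  have hM0 : 0 ≤ M := (norm_nonneg _).trans (hM x hx)
  calc _ ≤ ‖L * ∏ i, (z - a i)‖ * ((1 + 4 * u) * ‖w‖) ^ n :=
        le_mul_of_one_le_right (norm_nonneg _) (one_le_pow₀ h3)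
    _ = ‖L * ∏ i, (z - a i)‖ * ‖w‖ ^ n * (1 + 4 * u) ^ n := by rw [mul_pow]; ring
    _ ≤ _ := by gcongr

lemma jensen (c : ℂ) {R B : ℝ} (hR : 0 < R)
    (h : ∀ z, ‖z - c‖ = R → ‖L * ∏ i, (z - a i)‖ ≤ B) : ‖L‖ * ∏ i, max R ‖c - a i‖ ≤ B := by
  classical
  have := Complex.norm_le_of_forall_mem_frontier_norm_le (U := Metric.ball c R)
    (f := fun z => L * ∏ i, if R ≤ ‖c - a i‖ then z - a i else
      (R ^ 2 - (starRingEnd ℂ) (a i - c) * (z - c)) / R) Metric.isBounded_ball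
    (Differentiable.diffContOnCl (by
      refine Differentiable.const_mul (Differentiable.fun_finsetProd fun i _ => ?_) _
      split_ifs <;> fun_prop)) (C := B) ?_ (z := c) (subset_closure (Metric.mem_ball_self hR))
  · rw [norm_mul, norm_prod] at this
    convert this using 3 with i
    split_ifs with h
    · exact max_eq_right h
    · rw [max_eq_left (le_of_not_ge h), sub_self, mul_zero, sub_zero, norm_div, norm_pow,
        Complex.norm_real, Real.norm_of_nonneg hR.le]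
      field_simp
  · intro z hz
    rw [frontier_ball _ hR.ne', mem_sphere_iff_norm] at hz
    refine le_of_eq_of_le ?_ (h z hz)
    rw [norm_mul, norm_mul, norm_prod, norm_prod]
    congr 1
    refine Finset.prod_congr rfl fun i _ => ?_
    split_ifs
    · rfl
    · have h1 : (z - c) * (starRingEnd ℂ) (z - c) = R ^ 2 := by
        rw [Complex.mul_conj, Complex.normSq_eq_norm_sq, hz]; simp
      have e : (R : ℂ) ^ 2 - (starRingEnd ℂ) (a i - c) * (z - c) =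
          (z - c) * (starRingEnd ℂ) (z - a i) := by
        rw [← h1]; simp only [map_sub]; ring
      rw [e, norm_div, norm_mul, hz, Complex.norm_conj, Complex.norm_real,
        Real.norm_of_nonneg hR.le]
      field_simp

variable {μ : Measure ℝ} [IsProbabilityMeasure μ]

lemma IsMink.key₀ (h : IsMink μ) {m : ℕ} (hm : 725 ≤ m) {K : Set ℝ} (hK : MeasurableSet K)
    (hKc : μ Kᶜ ≤ (2 ^ (m ^ 6))⁻¹) {B : ℝ} (hB : ∀ x ∈ K, ‖L * ∏ i, ((x : ℂ) - a i)‖ ≤ B) :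
    ∀ x ∈ Icc (0 : ℝ) 1, ‖L * ∏ i, ((x : ℂ) - a i)‖ ≤
      B * ((1 + 4 / m) ^ 5 / (1 - 1 / m ^ 2)) ^ n := by
  classical
  obtain ⟨x, hx, hmax⟩ := isCompact_Icc.exists_isMaxOn ⟨0, left_mem_Icc.mpr zero_le_one⟩
    (f := fun x : ℝ => ‖L * ∏ i, ((x : ℂ) - a i)‖) (by fun_prop)
  intro y hy
  refine (hmax hy).trans ?_
  have hm' : (725 : ℝ) ≤ m := by exact_mod_cast hm
  have hm0 : (0 : ℝ) < m := by linarith
  have hN : m ^ 6 - 1 + 1 = m ^ 6 := Nat.sub_add_cancel (Nat.one_le_pow _ _ (by omega))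
  have hN' : ((m ^ 6 - 1 : ℕ) + 1 : ℝ) = m ^ 6 := by exact_mod_cast hN
  obtain ⟨I, hI⟩ : ∃ I : Finset (Fin n), I = Finset.univ.filter fun i => ‖x - a i‖ < 1 / m ^ 4 :=
    ⟨_, rfl⟩
  obtain ⟨z, hz, hz1, hz2⟩ := h.near (m ^ 6 - 1) hK (hN.symm ▸ hKc) hx I a
  rw [hN'] at hz1 hz2
  have hB0 : 0 ≤ B := (norm_nonneg _).trans (hB z hz)
  have ht : 0 < 1 - 1 / (m : ℝ) ^ 2 := by
    rw [sub_pos, div_lt_one (by positivity)]; nlinarith
  obtain ⟨M, hM⟩ : ∃ M, M = ‖L * ∏ i, ((x : ℂ) - a i)‖ := ⟨_, rfl⟩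
  show ‖L * ∏ i, ((x : ℂ) - a i)‖ ≤ _
  rw [← hM]
  rcases (hM ▸ norm_nonneg _ : 0 ≤ M).eq_or_lt with h0 | h0
  · rw [← h0]; positivity
  have j1 := jensen (L := L) (a := a) x (R := (1 / m) ^ 2) (B := M * (1 + 4 * (1 / m)) ^ n)
    (by positivity) fun z hz => bw' (fun t ht => hM ▸ hmax ht) (by positivity)
      (by rw [div_le_div_iff₀ hm0 (by norm_num)]; linarith) hx hz
  have hMe : M = ‖L‖ * ∏ i, ‖x - a i‖ := by rw [hM, norm_mul, norm_prod]
  have j2 : M * ((m : ℝ) ^ 2) ^ I.card ≤ ‖L‖ * ∏ i, max ((1 / m : ℝ) ^ 2) ‖x - a i‖ := by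
    have : ((m : ℝ) ^ 2) ^ I.card = ∏ i, if i ∈ I then (m : ℝ) ^ 2 else 1 := by
      rw [Finset.prod_ite_mem, Finset.univ_inter, Finset.prod_const]
    rw [hMe, this, mul_assoc, ← Finset.prod_mul_distrib]
    gcongr with i
    split_ifs with hi
    · rw [hI, Finset.mem_filter] at hi
      refine le_trans ?_ (le_max_left _ _)
      calc _ ≤ 1 / (m : ℝ) ^ 4 * m ^ 2 := by gcongr; exact hi.2.le
        _ = _ := by field_simp
    · rw [mul_one]; exact le_max_right _ _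
  have j3 : ((m : ℝ) ^ 2) ^ I.card ≤ (1 + 4 / m) ^ n := by
    have := j2.trans j1
    rw [mul_one_div] at this
    exact le_of_mul_le_mul_left this h0
  have j4 : ∀ i ∈ Iᶜ, ‖x - a i‖ * (1 - 1 / m ^ 2) ≤ ‖z - a i‖ := by
    intro i hi
    rw [Finset.mem_compl, hI, Finset.mem_filter] at hi
    have h1 : 1 / (m : ℝ) ^ 4 ≤ ‖x - a i‖ := by simpa using hi
    have h2 := norm_sub_le ((z : ℂ) - a i) ((z - x : ℝ) : ℂ)
    have e : (z : ℂ) - a i - ((z - x : ℝ) : ℂ) = x - a i := by push_cast; ring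
    rw [e, Complex.norm_real, Real.norm_eq_abs] at h2
    have h3 : |z - x| ≤ ‖x - a i‖ * (1 / m ^ 2) := by
      calc |z - x| ≤ 1 / m ^ 6 := by rw [le_div_iff₀ (by positivity)]; linarith
        _ = 1 / m ^ 4 * (1 / m ^ 2) := by field_simp
        _ ≤ _ := by gcongr
    linarith
  obtain ⟨η, hη⟩ : ∃ η : ℝ, η = ((4 : ℝ) ^ 8 * (8 * ((m : ℝ) ^ 6) ^ 2))⁻¹ := ⟨_, rfl⟩
  rw [← hη] at hz2
  have hη0 : 0 < η := by rw [hη]; positivity
  have j5 : ‖L‖ * (η ^ I.card * ((∏ i ∈ Iᶜ, ‖x - a i‖) * (1 - 1 / m ^ 2) ^ n)) ≤ B := by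
    refine le_trans ?_ (hB z hz)
    rw [norm_mul, norm_prod, ← Finset.prod_mul_prod_compl I]
    gcongr
    calc _ ≤ (∏ i ∈ Iᶜ, ‖x - a i‖) * (1 - 1 / m ^ 2) ^ Iᶜ.card := by
          gcongr ?_ * ?_
          exact pow_le_pow_of_le_one ht.le (by
            have : 0 ≤ 1 / (m : ℝ) ^ 2 := by positivity
            linarith) (by simpa using Finset.card_le_univ Iᶜ)
      _ = ∏ i ∈ Iᶜ, (‖x - a i‖ * (1 - 1 / m ^ 2)) := by
          rw [Finset.prod_mul_distrib, Finset.prod_const]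
      _ ≤ _ := Finset.prod_le_prod (fun i _ => by positivity) j4
  have j6 : ∏ i ∈ I, ‖x - a i‖ ≤ η ^ I.card * ((1 + 4 / m) ^ 5) ^ n := by
    calc _ ≤ ∏ i ∈ I, (η * ((m : ℝ) ^ 2) ^ 5) := by
          refine Finset.prod_le_prod (fun i _ => norm_nonneg _) fun i hi => ?_
          rw [hI, Finset.mem_filter] at hi
          refine hi.2.le.trans ?_
          rw [hη, inv_mul_eq_div, div_le_div_iff₀ (by positivity) (by positivity)]
          have : (4 : ℝ) ^ 8 * 8 ≤ m ^ 2 := by nlinarith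
          calc _ = ((4 : ℝ) ^ 8 * 8) * m ^ 12 := by ring
            _ ≤ m ^ 2 * m ^ 12 := by gcongr
            _ = _ := by ring
      _ = η ^ I.card * (((m : ℝ) ^ 2) ^ I.card) ^ 5 := by
          rw [Finset.prod_const, mul_pow, pow_right_comm _ 5]
      _ ≤ η ^ I.card * ((1 + 4 / m) ^ n) ^ 5 := by gcongr
      _ = _ := by rw [← pow_mul, ← pow_mul, mul_comm 5]
  rw [div_pow, ← mul_div_assoc, le_div_iff₀ (by positivity), hMe, ← Finset.prod_mul_prod_compl I]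
  calc _ ≤ ‖L‖ * ((η ^ I.card * ((1 + 4 / m) ^ 5) ^ n) * ∏ i ∈ Iᶜ, ‖x - a i‖) *
        (1 - 1 / m ^ 2) ^ n := by gcongr
    _ = ‖L‖ * (η ^ I.card * ((∏ i ∈ Iᶜ, ‖x - a i‖) * (1 - 1 / m ^ 2) ^ n)) *
        ((1 + 4 / m) ^ 5) ^ n := by ring
    _ ≤ _ := by gcongr

theorem IsMink.key (h : IsMink μ) {lam : ℝ} (hl : 1 < lam) : ∃ κ : ℝ≥0∞, 0 < κ ∧ κ ≠ ⊤ ∧
    ∀ K : Set ℝ, MeasurableSet K → μ Kᶜ ≤ κ → ∀ (q : ℂ[X]) (B : ℝ),
      (∀ x ∈ K, ‖q.eval (x : ℂ)‖ ≤ B) → ‖q.leadingCoeff‖ ≤ (4 * lam) ^ q.natDegree * B := by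
  have ht : Tendsto (fun m : ℕ => (1 + 4 / (m : ℝ)) ^ 5 / (1 - 1 / (m : ℝ) ^ 2)) atTop
      (𝓝 ((1 + 0) ^ 5 / (1 - 0))) := by
    refine Tendsto.div (((tendsto_const_div_atTop_nhds_zero_nat 4).const_add 1).pow 5)
      (Tendsto.const_sub 1 ?_) (by norm_num)
    have := (tendsto_const_div_atTop_nhds_zero_nat (1 : ℝ)).pow 2
    simpa using this
  obtain ⟨m, hm1, hm2⟩ := ((ht.eventually (gt_mem_nhds (by simpa using hl))).and
    (eventually_ge_atTop 725)).exists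
  refine ⟨(2 ^ (m ^ 6))⁻¹, by simp, by simp, fun K hK hKc q B hB => ?_⟩
  obtain ⟨a, ha⟩ := factor q
  simp only [ha] at hB
  have h1 := h.key₀ hm2 hK hKc hB
  have hB0 : 0 ≤ B * ((1 + 4 / (m : ℝ)) ^ 5 / (1 - 1 / m ^ 2)) ^ q.natDegree :=
    (norm_nonneg _).trans (h1 0 ⟨le_rfl, zero_le_one⟩)
  have hm' : (725 : ℝ) ≤ m := by exact_mod_cast hm2
  have ht : 0 < 1 - 1 / (m : ℝ) ^ 2 := by
    rw [sub_pos, div_lt_one (by positivity)]; nlinarith
  have hB1 : 0 ≤ B := nonneg_of_mul_nonneg_left hB0 (by positivity)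
  calc _ ≤ _ := lead_le h1
    _ ≤ 4 ^ q.natDegree * (B * lam ^ q.natDegree) := by gcongr
    _ = _ := by rw [mul_pow]; ring

end Pool.Agent.H.MP_bff676_an
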