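import Pool.Agent.H.MP_bff676_an.C

namespace Pool.Agent.H.MP_bff676_an

open MeasureTheory Set Filter Topology Polynomial
open scoped ENNReal

lemma exists_cheb {n : ℕ} (hn : 0 < n) : ∃ T : ℝ[X], T.Monic ∧ T.natDegree = n ∧
    ∀ x ∈ Icc (0 : ℝ) 1, |T.eval x| ≤ 2 / 4 ^ n := by
  have h1 : (C 2 * X + C (-1) : ℝ[X]).natDegree = 1 := natDegree_linear two_ne_zero
  have h2 : (C 2 * X + C (-1) : ℝ[X]).leadingCoeff = 2 := leadingCoeff_linear two_ne_zero
  refine ⟨C (2 / 4 ^ n) * (Chebyshev.T ℝ n).comp (C 2 * X + C (-1)), ?_, ?_, fun x hx => ?_⟩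
  · rw [Monic, leadingCoeff_mul, leadingCoeff_C, leadingCoeff_comp (by rw [h1]; simp), h2,
      Chebyshev.leadingCoeff_T, Chebyshev.natDegree_T, Int.natAbs_natCast]
    obtain ⟨k, rfl⟩ := Nat.exists_eq_succ_of_ne_zero hn.ne'
    rw [Nat.succ_sub_one, show (4 : ℝ) = 2 * 2 by norm_num, mul_pow, pow_succ]
    field_simp
  · rw [natDegree_C_mul (by positivity), natDegree_comp, h1, Chebyshev.natDegree_T]; simp
  · rw [eval_mul, eval_C, eval_comp, abs_mul, abs_of_pos (by positivity)]
    refine mul_le_of_le_one_right (by positivity) (Chebyshev.abs_eval_T_real_le_one _ ?_)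
    simp only [eval_add, eval_mul, eval_C, eval_X]
    rw [abs_le]; constructor <;> linarith [hx.1, hx.2]

lemma eval_map_real (p : ℝ[X]) (x : ℝ) :
    ‖(p.map (algebraMap ℝ ℂ)).eval (x : ℂ)‖ = |p.eval x| := by
  have : (p.map (algebraMap ℝ ℂ)).eval (x : ℂ) = ((p.eval x : ℝ) : ℂ) := by
    rw [eval_map]
    exact eval₂_at_apply (algebraMap ℝ ℂ) x
  rw [this, Complex.norm_real, Real.norm_eq_abs]

lemma capK_le {K : Set ℝ} (hK : K ⊆ Icc 0 1) : capK K ≤ ENNReal.ofReal (1 / 4) := by
  have key : ∀ lam : ℝ, 1 < lam → capK K ≤ ENNReal.ofReal (lam / 4) := by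
    intro lam hl
    obtain ⟨n, hn1, hn2⟩ := (((tendsto_pow_atTop_atTop_of_one_lt hl).eventually_ge_atTop 2).and
      (eventually_gt_atTop 0)).exists
    obtain ⟨T, hT1, hT2, hT3⟩ := exists_cheb hn2
    have hd : (T.map (algebraMap ℝ ℂ)).natDegree = n := by rw [natDegree_map, hT2]
    refine (iInf_le_of_le (T.map (algebraMap ℝ ℂ)) (iInf_le_of_le (hT1.map _)
      (iInf_le _ (hd ▸ hn2)))).trans ?_
    rw [hd, ENNReal.rpow_inv_le_iff (by exact_mod_cast hn2), ENNReal.rpow_natCast,
      ← ENNReal.ofReal_pow (by positivity)]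
    refine iSup₂_le fun x hx => ?_
    rw [← ofReal_norm_eq_enorm, eval_map_real]
    refine ENNReal.ofReal_le_ofReal ((hT3 x (hK hx)).trans ?_)
    rw [div_pow]; gcongr
  have ht : Tendsto (fun lam : ℝ => ENNReal.ofReal (lam / 4)) (𝓝[>] 1)
      (𝓝 (ENNReal.ofReal (1 / 4))) :=
    ENNReal.tendsto_ofReal ((tendsto_id.div_const 4).mono_left nhdsWithin_le_nhds)
  exact ge_of_tendsto ht (eventually_nhdsWithin_of_forall key)

variable {μ : Measure ℝ} [IsProbabilityMeasure μ]

theorem IsMink.carrier (h : IsMink μ) : carrierCap μ = ENNReal.ofReal (1 / 4) := by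
  apply le_antisymm
  · refine iInf_le_of_le (Icc 0 1) (iInf_le_of_le measurableSet_Icc (iInf_le_of_le h.compl ?_))
    exact iSup_le fun K => iSup_le fun _ => iSup_le fun hK => capK_le hK
  · refine le_iInf fun B => le_iInf fun hB => le_iInf fun hBc => ?_
    have key : ∀ lam : ℝ, 1 < lam → ENNReal.ofReal (1 / (4 * lam)) ≤ capB B := by
      intro lam hl
      obtain ⟨κ, hκ, -, hk⟩ := h.key hl
      obtain ⟨K, hKB, hK, hKc⟩ := hB.exists_isCompact_diff_lt (measure_ne_top μ B) hκ.ne'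
      refine le_iSup_of_le K (le_iSup_of_le hK (le_iSup_of_le hKB ?_))
      refine le_iInf fun p => le_iInf fun hp => le_iInf fun hd => ?_
      rw [ENNReal.le_rpow_inv_iff (by exact_mod_cast hd), ENNReal.rpow_natCast,
        ← ENNReal.ofReal_pow (by positivity)]
      obtain ⟨S, hS⟩ : ∃ S, S = ⨆ x ∈ K, ‖p.eval (x : ℂ)‖ₑ := ⟨_, rfl⟩
      rw [← hS]
      by_cases hT : S = ⊤
      · rw [hT]; exact le_top
      have h1 := hk K hK.measurableSet (by
        calc μ Kᶜ ≤ μ (Bᶜ ∪ B \ K) := measure_mono fun x hx => by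
              by_cases hxB : x ∈ B
              · exact Or.inr ⟨hxB, hx⟩
              · exact Or.inl hxB
          _ ≤ μ Bᶜ + μ (B \ K) := measure_union_le _ _
          _ ≤ κ := by rw [hBc, zero_add]; exact hKc.le) p S.toReal (fun x hx => by
        rw [← ENNReal.ofReal_le_iff_le_toReal hT, ofReal_norm_eq_enorm, hS]
        exact le_iSup₂ (f := fun (x : ℝ) (_ : x ∈ K) => ‖p.eval (x : ℂ)‖ₑ) x hx)
      rw [hp.leadingCoeff, norm_one] at h1
      rw [ENNReal.ofReal_le_iff_le_toReal hT, one_div_pow, div_le_iff₀ (by positivity), mul_comm]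
      exact h1
    have ht : Tendsto (fun lam : ℝ => ENNReal.ofReal (1 / (4 * lam))) (𝓝[>] 1)
        (𝓝 (ENNReal.ofReal (1 / (4 * 1)))) :=
      ENNReal.tendsto_ofReal ((tendsto_const_nhds.div (tendsto_id.const_mul 4)
        (by norm_num)).mono_left nhdsWithin_le_nhds)
    rw [mul_one] at ht
    exact le_of_tendsto ht (eventually_nhdsWithin_of_forall key)

lemma IsMink.int (h : IsMink μ) {f : ℝ → ℝ} (hf : Continuous f) : Integrable f μ := by
  have : ∀ᵐ x ∂μ, x ∈ Icc (0 : ℝ) 1 := h.compl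
  rw [← Measure.restrict_eq_self_of_ae_mem this]
  exact hf.continuousOn.integrableOn_Icc

variable {p : ℕ → ℝ[X]}

lemma IsMink.orth (h : IsMink μ) (hd : ∀ n, (p n).natDegree = n) (hl : ∀ n, 0 < (p n).leadingCoeff)
    (ho : ∀ m n, ∫ x, (p m).eval x * (p n).eval x ∂μ = if m = n then 1 else 0) (n : ℕ) :
    ∀ k ≤ n, ∀ r : ℝ[X], (∀ j, k ≤ j → r.coeff j = 0) → ∫ x, (p n).eval x * r.eval x ∂μ = 0 := by
  intro k
  induction k with
  | zero =>
    intro _ r hr
    have : r = 0 := by ext j; exact hr j (Nat.zero_le j)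
    simp [this]
  | succ k ih =>
    intro hk r hr
    have h1 := ih (by omega) (r - C (r.coeff k / (p k).leadingCoeff) * p k) (by
      intro j hj
      rw [coeff_sub, coeff_C_mul]
      rcases hj.eq_or_lt with rfl | hj
      · have := (hl k).ne'
        rw [leadingCoeff, hd] at this ⊢
        field_simp; ring
      · rw [hr j hj, coeff_eq_zero_of_natDegree_lt (p := p k) (by rw [hd]; exact hj)]; simp)
    have h2 := ho n k
    rw [if_neg (by omega)] at h2
    simp only [eval_sub, eval_mul, eval_C, mul_sub, mul_left_comm _ (r.coeff k / _)] at h1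
    rwa [integral_sub (h.int (by fun_prop)) (h.int (by fun_prop)), integral_const_mul, h2, mul_zero,
      sub_zero] at h1

lemma IsMink.upper (h : IsMink μ) (hd : ∀ n, (p n).natDegree = n) (hl : ∀ n, 0 < (p n).leadingCoeff)
    (ho : ∀ m n, ∫ x, (p m).eval x * (p n).eval x ∂μ = if m = n then 1 else 0) {n : ℕ}
    (hn : 0 < n) : 1 ≤ (p n).leadingCoeff * (2 / 4 ^ n) := by
  obtain ⟨T, hT1, hT2, hT3⟩ := exists_cheb hn
  have h1 := h.orth hd hl ho n n le_rfl (p n - C (p n).leadingCoeff * T) (by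
    intro j hj
    rw [coeff_sub, coeff_C_mul]
    rcases hj.eq_or_lt with rfl | hj
    · have := hT1.coeff_natDegree
      rw [hT2] at this
      rw [this, leadingCoeff, hd]; ring
    · rw [coeff_eq_zero_of_natDegree_lt (by rw [hd]; exact hj),
        coeff_eq_zero_of_natDegree_lt (by rw [hT2]; exact hj)]; simp)
  have h2 := ho n n
  rw [if_pos rfl] at h2
  simp only [eval_sub, eval_mul, eval_C, mul_sub, mul_left_comm _ (p n).leadingCoeff] at h1
  rw [integral_sub (h.int (by fun_prop)) (h.int (by fun_prop)), integral_const_mul, h2,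
    sub_eq_zero] at h1
  rw [h1]
  gcongr
  · exact (hl n).le
  have hae : ∀ᵐ x ∂μ, x ∈ Icc (0 : ℝ) 1 := h.compl
  calc _ ≤ ∫ x, (2 / 4 ^ n / 2) * ((p n).eval x * (p n).eval x + 1) ∂μ := by
        refine integral_mono_ae (h.int (by fun_prop)) (h.int (by fun_prop)) ?_
        filter_upwards [hae] with x hx
        have h3 := hT3 x hx
        calc _ ≤ |(p n).eval x| * |T.eval x| := by rw [← abs_mul]; exact le_abs_self _
          _ ≤ ((p n).eval x * (p n).eval x + 1) / 2 * (2 / 4 ^ n) := by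
            have h4 : |(p n).eval x| ≤ ((p n).eval x * (p n).eval x + 1) / 2 := by
              nlinarith [sq_nonneg (|(p n).eval x| - 1), abs_mul_abs_self ((p n).eval x)]
            exact mul_le_mul h4 h3 (abs_nonneg _) ((abs_nonneg _).trans h4)
          _ = _ := by ring
    _ = _ := by
        rw [integral_const_mul, integral_add (h.int (by fun_prop)) (integrable_const _), h2]
        simp; ring

lemma IsMink.lower (h : IsMink μ) (hd : ∀ n, (p n).natDegree = n) (hl : ∀ n, 0 < (p n).leadingCoeff)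
    (ho : ∀ m n, ∫ x, (p m).eval x * (p n).eval x ∂μ = if m = n then 1 else 0) {lam : ℝ}
    (hlam : 1 < lam) : ∃ B : ℝ, ∀ n, (p n).leadingCoeff ≤ (4 * lam) ^ n * B := by
  obtain ⟨κ, h0, hT, hk⟩ := h.key hlam
  have hκ : 0 < κ.toReal := ENNReal.toReal_pos h0.ne' hT
  refine ⟨√(κ.toReal⁻¹), fun n => ?_⟩
  have h2 := ho n n
  rw [if_pos rfl] at h2
  have h1 := mul_meas_ge_le_integral_of_nonneg (μ := μ)
    (f := fun x => (p n).eval x * (p n).eval x) (ae_of_all _ fun x => mul_self_nonneg _)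
    (h.int (by fun_prop)) κ.toReal⁻¹
  rw [h2, inv_mul_le_iff₀ hκ, mul_one] at h1
  have := hk {x | κ.toReal⁻¹ ≤ (p n).eval x * (p n).eval x}ᶜ
    (measurableSet_le measurable_const (by fun_prop)).compl (by
      rw [compl_compl]
      exact (ENNReal.toReal_le_toReal (measure_ne_top _ _) hT).mp h1)
    ((p n).map (algebraMap ℝ ℂ)) √(κ.toReal⁻¹) (fun x hx => by
      rw [eval_map_real]
      apply Real.abs_le_sqrt
      simp only [mem_compl_iff, mem_ofPred_eq, not_le] at hx
      rw [sq]; exact hx.le)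
  rwa [leadingCoeff_map, natDegree_map, hd, Complex.coe_algebraMap, Complex.norm_real,
    Real.norm_of_nonneg (hl n).le] at this

theorem IsMink.lim (h : IsMink μ) (hd : ∀ n, (p n).natDegree = n) (hl : ∀ n, 0 < (p n).leadingCoeff)
    (ho : ∀ m n, ∫ x, (p m).eval x * (p n).eval x ∂μ = if m = n then 1 else 0) :
    Tendsto (fun n : ℕ => ((p n).leadingCoeff⁻¹) ^ ((n : ℝ)⁻¹)) atTop (𝓝 (1 / 4)) := by
  rw [tendsto_order]
  constructor
  · intro c hc
    have ht : Tendsto (fun lam : ℝ => 1 / (4 * lam * lam)) (𝓝[>] 1) (𝓝 (1 / (4 * 1 * 1))) :=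
      (tendsto_const_nhds.div ((tendsto_id.const_mul 4).mul tendsto_id)
        (by norm_num)).mono_left nhdsWithin_le_nhds
    obtain ⟨lam, h1, h2⟩ := ((ht.eventually (lt_mem_nhds (by simpa using hc))).and
      self_mem_nhdsWithin).exists
    have h2' : 1 < lam := h2
    obtain ⟨B, hB⟩ := h.lower hd hl ho h2'
    filter_upwards [(tendsto_pow_atTop_atTop_of_one_lt h2').eventually_ge_atTop B,
      eventually_gt_atTop 0] with n hn1 hn2
    refine h1.trans_le ?_
    rw [Real.le_rpow_inv_iff_of_pos (by positivity) (inv_nonneg.mpr (hl n).le)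
      (by exact_mod_cast hn2), Real.rpow_natCast, one_div, inv_pow]
    refine inv_anti₀ (hl n) ((hB n).trans ?_)
    rw [mul_pow (4 * lam) lam]
    gcongr
  · intro c hc
    obtain ⟨lam, h1, h2⟩ := exists_between (show 1 < 4 * c by linarith)
    filter_upwards [(tendsto_pow_atTop_atTop_of_one_lt h1).eventually_ge_atTop 2,
      eventually_gt_atTop 0] with n hn1 hn2
    refine lt_of_le_of_lt ?_ (show lam / 4 < c by linarith)
    rw [Real.rpow_inv_le_iff_of_pos (inv_nonneg.mpr (hl n).le) (by positivity)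
      (by exact_mod_cast hn2), Real.rpow_natCast, inv_le_iff_one_le_mul₀' (hl n)]
    refine (h.upper hd hl ho hn2).trans ?_
    rw [div_pow]
    gcongr
    exact (hl n).le

lemma prod_eq (hd : ∀ n, (p n).natDegree = n) (hl : ∀ n, 0 < (p n).leadingCoeff)
    (ho : ∀ m n, ∫ x, (p m).eval x * (p n).eval x ∂μ = if m = n then 1 else 0) {a b : ℕ → ℝ}
    (h0 : X * p 0 = C (a 1) * p 1 + C (b 0) * p 0)
    (hr : ∀ n, X * p (n + 1) = C (a (n + 2)) * p (n + 2) + C (b (n + 1)) * p (n + 1) +
      C (a (n + 1)) * p n) (n : ℕ) : ∏ i ∈ Finset.range n, a (i + 1) = (p n).leadingCoeff⁻¹ := by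
  have hz : ∀ m k, m < k → (p m).coeff k = 0 := fun m k h =>
    coeff_eq_zero_of_natDegree_lt (by rw [hd]; exact h)
  have hc : ∀ m, (p m).leadingCoeff = (p m).coeff m := fun m => by rw [leadingCoeff, hd]
  have step : ∀ m, (p m).leadingCoeff = a (m + 1) * (p (m + 1)).leadingCoeff := by
    intro m
    rw [hc, hc]
    cases m with
    | zero =>
      have := congrArg (coeff · 1) h0
      simpa [coeff_X_mul, hz 0 1 one_pos] using this
    | succ m =>
      have := congrArg (coeff · (m + 2)) (hr m)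
      simpa [coeff_X_mul, hz (m + 1) (m + 2) (by omega), hz m (m + 2) (by omega)] using this
  induction n with
  | zero =>
    have h1 := ho 0 0
    have h2 := eq_C_of_natDegree_eq_zero (hd 0)
    have h3 := hl 0
    rw [hc] at h3 ⊢
    rw [h2] at h1
    simp at h1
    have : (p 0).coeff 0 = 1 := by nlinarith
    simp [this]
  | succ n ih =>
    have h1 := hl (n + 1)
    have h2 := hl n
    rw [Finset.prod_range_succ, ih]
    rw [step n] at h2 ⊢
    have : a (n + 1) ≠ 0 := left_ne_zero_of_mul h2.ne'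
    field_simp

end Pool.Agent.H.MP_bff676_an
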