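import Mathlib

namespace Pool.Agent.H.MP_bff676_an

open MeasureTheory Polynomial
open scoped ENNReal

/-- The Gauss map (with `0 ↦ 0`). -/
noncomputable def gauss (x : ℝ) : ℝ := Int.fract x⁻¹

/-- The continued fraction digit `a_{k+1}` of `x`. -/
noncomputable def digit (x : ℝ) (k : ℕ) : ℕ := ⌊(gauss^[k] x)⁻¹⌋₊

/-- Minkowski's question mark function; the expansion stops when the Gauss orbit reaches `0`. -/
noncomputable def mink (x : ℝ) : ℝ :=
  2 * ∑' k : ℕ, if gauss^[k] x = 0 then 0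
    else (-1) ^ k / 2 ^ (∑ i ∈ Finset.range (k + 1), digit x i)

/-- Capacity of a compact set as its Chebyshev constant. -/
noncomputable def capK (K : Set ℝ) : ℝ≥0∞ :=
  ⨅ (p : ℂ[X]) (_ : p.Monic) (_ : 0 < p.natDegree),
    (⨆ x ∈ K, ‖p.eval (x : ℂ)‖ₑ) ^ ((p.natDegree : ℝ)⁻¹)

/-- Inner capacity. -/
noncomputable def capB (B : Set ℝ) : ℝ≥0∞ := ⨆ (K : Set ℝ) (_ : IsCompact K) (_ : K ⊆ B), capK K

/-- Minimal carrier capacity. -/
noncomputable def carrierCap (μ : Measure ℝ) : ℝ≥0∞ :=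
  ⨅ (B : Set ℝ) (_ : MeasurableSet B) (_ : μ Bᶜ = 0), capB B

end Pool.Agent.H.MP_bff676_an
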